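import Pool.Agent.Helper30.DL.GoalsB

set_option autoImplicit false

open Complex (I)
open Finset

namespace Pool.Agent.Helper58.DL

open Pool.Agent.Helper30.DL

/-- Abel summation -/
lemma abel (z F : ℕ → ℝ) (h0 : F 0 = 0) (n : ℕ) :
    ∑ i ∈ range n, z i * (F (i + 1) - F i)
      = z n * F n + ∑ i ∈ range n, (z i - z (i + 1)) * F (i + 1) := by
  induction n with
  | zero => simp [h0]
  | succ n ih =>
    rw [Finset.sum_range_succ, ih, Finset.sum_range_succ]
    ring

lemma re_sq (a : ℂ) : a.re ^ 2 = (Complex.normSq a + (a ^ 2).re) / 2 := by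
  rw [Complex.normSq_apply, pow_two a, Complex.mul_re]
  ring

/-- telescoping -/
lemma tele (z : ℕ → ℝ) (n : ℕ) :
    ∑ i ∈ range n, z (i + 1) ^ 2 = ∑ i ∈ range n, z i ^ 2 + z n ^ 2 - z 0 ^ 2 := by
  induction n with
  | zero => simp
  | succ n ih =>
    rw [Finset.sum_range_succ, ih, Finset.sum_range_succ]
    ring

/-- shift of the weighted sum -/
lemma wshift (d : ℕ → ℝ) (k : ℕ) (hk : 1 ≤ k) (D : ℕ → ℝ)
    (h : ∀ i, i + 1 < k → D (i + 1) = d i) :
    ∑ i ∈ range k, ((k : ℝ) - i) * D i ^ 2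
      = k * D 0 ^ 2 + ∑ i ∈ range k, ((k : ℝ) - 1 - i) * d i ^ 2 := by
  obtain ⟨n, rfl⟩ : ∃ n, k = n + 1 := ⟨k - 1, by omega⟩
  rw [Finset.sum_range_succ', Finset.sum_range_succ]
  have h1 : ∑ i ∈ range n, (((n + 1 : ℕ) : ℝ) - ((i + 1 : ℕ) : ℝ)) * D (i + 1) ^ 2
      = ∑ i ∈ range n, (((n + 1 : ℕ) : ℝ) - 1 - i) * d i ^ 2 := by
    apply Finset.sum_congr rfl
    intro i hi
    rw [h i (by have := Finset.mem_range.mp hi; omega)]
    push_cast
    ring
  rw [h1]
  push_cast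
  ring

theorem qtot (hC : CstStmt) (hW : WndStmt) : QtotStmt := by
  intro k hk t ht P g w
  obtain ⟨ht0, -, hkt, -, hpp, hjs, hlk, -, hlm, hlc, hex2, hmu, hex8, hlkc, -, -, -, -, -, -, -,
    hkn, -, -, hexz, hGg⟩ := hC k hk t ht
  obtain ⟨-, -, hz, hd0, hd, -, -, -, hz0, -, -⟩ := hW k hk t ht (th t * g) w
  set w' := nx k (pp t) (th t * g) w with hw'
  set L := lam t with hL
  set K := kap t with hK
  have hth : 0 < th t := by unfold th; linarith
  -- notation
  set e : ℕ → ℝ := fun i => (K * L ^ (k - 1 - i)).re with he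
  set r : ℕ → ℝ := fun j => (K * cj L ^ (j + 2)).re with hr
  set Fn : ℕ → ℝ := fun n => (kl t - K * cj L ^ (n + 1)).re with hFn
  have hLb : ∀ j : ℕ, ex t (2 * (-1 * (j : ℤ))) = cj L ^ j := by
    intro j
    rw [hexz]
    have h1 : (-1 * (j : ℤ)) = -(j : ℤ) := by ring
    rw [h1, zpow_neg, zpow_natCast]
    have h2 : L ^ j * cj L ^ j = 1 := by rw [← mul_pow, hlc, one_pow]
    exact (eq_inv_of_mul_eq_one_right h2).symm
  have hFn0 : Fn 0 = 0 := by
    simp only [hFn, zero_add, pow_one]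
    unfold kl
    rw [hex2, sub_self, Complex.zero_re]
  have hcj1 : 1 - cj L = (pp t : ℂ) * lk t := by
    have h1 : cj (L - 1) = cj (-((pp t : ℂ) * cj (lk t))) := by rw [hlm]
    unfold cj at h1 ⊢
    rw [map_sub, map_one, map_neg, map_mul, Complex.conj_ofReal, Complex.conj_conj] at h1
    linear_combination -h1
  have hEr : ∀ j, j < k → pp t * e j = Fn (j + 1) - Fn j := by
    intro j hj
    have h1 : L ^ (k - 1 - j) = cj L ^ (j + 1) * lk t := by
      have h2 : L ^ (j + 1) * cj L ^ (j + 1) = 1 := by rw [← mul_pow, hlc, one_pow]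
      have h3 : L ^ k = L ^ (k - 1 - j) * L ^ (j + 1) := by
        rw [← pow_add]
        congr 1
        omega
      rw [← hlk, h3]
      linear_combination (-(L ^ (k - 1 - j))) * h2
    have h2 : (pp t : ℂ) * (K * L ^ (k - 1 - j)) = (kl t - K * cj L ^ (j + 1 + 1))
        - (kl t - K * cj L ^ (j + 1)) := by
      rw [h1]
      have : cj L ^ (j + 1 + 1) = cj L ^ (j + 1) * cj L := pow_succ _ _
      rw [this]
      linear_combination (-(K * cj L ^ (j + 1))) * hcj1
    have h3 := congrArg Complex.re h2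
    rw [Complex.re_ofReal_mul, Complex.sub_re] at h3
    exact h3

  have hG0 := hGg 0 (by norm_num)
  have hG1 := hGg 1 (by norm_num)
  -- the sums
  have hS1 : Sg t 1 = (th t : ℂ) * ∑ j ∈ range k, L ^ j := by
    have h1 := hG0 1 (by norm_num) (by norm_num)
    have h2 : Gg t 0 1 = Sg t 1 := rfl
    rw [h2] at h1
    rw [h1]
    congr 1
    apply Finset.sum_congr rfl
    intro j _
    rw [pow_zero, one_mul, hexz, one_mul, zpow_natCast]
  have hS2 : Sg t 2 = (th t : ℂ) * ∑ j ∈ range k, (L ^ j) ^ 2 := by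
    have h1 := hG0 2 (by norm_num) (by norm_num)
    have h2 : Gg t 0 2 = Sg t 2 := rfl
    rw [h2] at h1
    rw [h1]
    congr 1
    apply Finset.sum_congr rfl
    intro j _
    rw [pow_zero, one_mul, hexz]
    have h3 : (2 : ℤ) * (j : ℤ) = ((j * 2 : ℕ) : ℤ) := by push_cast; ring
    rw [h3, zpow_natCast, pow_mul]
  have hL2 : Lg t 2 = (th t : ℂ) * ∑ j ∈ range k, ((th t * ((k : ℝ) - 1 - j) : ℝ) : ℂ)
      * (L ^ j) ^ 2 := by
    have h1 := hG1 2 (by norm_num) (by norm_num)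
    have h2 : Gg t 1 2 = Lg t 2 := rfl
    rw [h2] at h1
    rw [h1]
    congr 1
    apply Finset.sum_congr rfl
    intro j _
    rw [pow_one, hexz]
    have h3 : (2 : ℤ) * (j : ℤ) = ((j * 2 : ℕ) : ℤ) := by push_cast; ring
    rw [h3, zpow_natCast, pow_mul]
  have hL0 : L0 t = th t * ∑ j ∈ range k, (th t * ((k : ℝ) - 1 - j)) := by
    have h1 := hG1 0 (by norm_num) (by norm_num)
    have h2 : Gg t 1 0 = (L0 t : ℂ) := rfl
    rw [h2] at h1
    have h3 : (th t : ℂ) * ∑ j ∈ range k, ((th t * ((k : ℝ) - 1 - j) : ℝ) : ℂ) ^ 1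
        * ex t (2 * (0 * (j : ℤ)))
        = ((th t * ∑ j ∈ range k, (th t * ((k : ℝ) - 1 - j)) : ℝ) : ℂ) := by
      rw [Complex.ofReal_mul, Complex.ofReal_sum]
      congr 1
      apply Finset.sum_congr rfl
      intro j _
      rw [pow_one, hexz, zero_mul, zpow_zero, mul_one]
    rw [h3] at h1
    exact_mod_cast h1
  have hnL : ∀ n : ℕ, Complex.normSq (L ^ n) = 1 := by
    intro n
    have h1 : ((Complex.normSq L : ℝ) : ℂ) = 1 := by
      rw [← Complex.mul_conj]
      exact hlc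
    have h2 : Complex.normSq L = 1 := by exact_mod_cast h1
    rw [map_pow, h2, one_pow]
  have hnLb : ∀ n : ℕ, Complex.normSq (cj L ^ n) = 1 := by
    intro n
    have h1 : cj L ^ n = cj (L ^ n) := by
      unfold cj
      rw [map_pow]
    rw [h1]
    unfold cj
    rw [Complex.normSq_conj, hnL]
  -- reflection
  have hrefl : ∀ f : ℕ → ℝ, ∑ i ∈ range k, f (k - 1 - i) = ∑ i ∈ range k, f i := fun f =>
    Finset.sum_range_reflect f k
  have hE1 : th t * ∑ i ∈ range k, e i = (K * Sg t 1).re := by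
    have h1 : ∑ i ∈ range k, e i = ∑ i ∈ range k, (K * L ^ i).re :=
      hrefl (fun i => (K * L ^ i).re)
    rw [h1, hS1]
    have h2 : K * ((th t : ℂ) * ∑ j ∈ range k, L ^ j)
        = (th t : ℂ) * ∑ j ∈ range k, K * L ^ j := by
      rw [Finset.mul_sum, Finset.mul_sum, Finset.mul_sum]
      apply Finset.sum_congr rfl
      intro j _
      ring
    rw [h2, Complex.re_ofReal_mul, Complex.re_sum]
  have hE2 : th t * ∑ i ∈ range k, e i ^ 2 = (kt t * kn t + (K ^ 2 * Sg t 2).re) / 2 := by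
    have h1 : ∑ i ∈ range k, e i ^ 2 = ∑ i ∈ range k, (K * L ^ i).re ^ 2 :=
      hrefl (fun i => (K * L ^ i).re ^ 2)
    have h2 : ∀ i ∈ range k, (K * L ^ i).re ^ 2 = (kn t + (K ^ 2 * (L ^ i) ^ 2).re) / 2 := by
      intro i _
      rw [re_sq, map_mul, hnL, mul_one, hkn, mul_pow]
    rw [h1, Finset.sum_congr rfl h2, ← Finset.sum_div, Finset.sum_add_distrib, Finset.sum_const,
      Finset.card_range, nsmul_eq_mul, hS2]
    have h3 : K ^ 2 * ((th t : ℂ) * ∑ j ∈ range k, (L ^ j) ^ 2)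
        = (th t : ℂ) * ∑ j ∈ range k, K ^ 2 * (L ^ j) ^ 2 := by
      rw [Finset.mul_sum, Finset.mul_sum, Finset.mul_sum]
      apply Finset.sum_congr rfl
      intro j _
      ring
    rw [h3, Complex.re_ofReal_mul, Complex.re_sum, ← hkt]
    ring
  have hR2 : th t ^ 2 * ∑ j ∈ range k, ((k : ℝ) - 1 - j) * r j ^ 2
      = (kn t * L0 t + (K ^ 2 * ex t (-8) * cj (Lg t 2)).re) / 2 := by
    have h2 : ∀ j ∈ range k, ((k : ℝ) - 1 - j) * r j ^ 2
        = (((k : ℝ) - 1 - j) * kn t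
          + (K ^ 2 * ex t (-8) * ((((k : ℝ) - 1 - j : ℝ) : ℂ) * (cj L ^ j) ^ 2)).re) / 2 := by
      intro j _
      have h3 : K ^ 2 * ex t (-8) * ((((k : ℝ) - 1 - j : ℝ) : ℂ) * (cj L ^ j) ^ 2)
          = (((k : ℝ) - 1 - j : ℝ) : ℂ) * (K * cj L ^ (j + 2)) ^ 2 := by
        rw [hex8]
        ring
      rw [h3, Complex.re_ofReal_mul]
      simp only [hr]
      rw [re_sq, map_mul, hnLb, mul_one, hkn]
      ring
    rw [Finset.sum_congr rfl h2, ← Finset.sum_div, Finset.sum_add_distrib, ← Finset.sum_mul, hL0,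
      hL2]
    have h4 : K ^ 2 * ex t (-8) * cj ((th t : ℂ) * ∑ j ∈ range k,
          ((th t * ((k : ℝ) - 1 - j) : ℝ) : ℂ) * (L ^ j) ^ 2)
        = ((th t ^ 2 : ℝ) : ℂ) * ∑ j ∈ range k,
          K ^ 2 * ex t (-8) * ((((k : ℝ) - 1 - j : ℝ) : ℂ) * (cj L ^ j) ^ 2) := by
      unfold cj
      rw [map_mul, map_sum, Complex.conj_ofReal, Finset.mul_sum, Finset.mul_sum, Finset.mul_sum]
      apply Finset.sum_congr rfl
      intro j _
      rw [map_mul, Complex.conj_ofReal, map_pow, map_pow]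
      push_cast
      ring
    rw [h4, Complex.re_ofReal_mul, Complex.re_sum, ← Finset.mul_sum]
    ring

  -- Abel summation
  set ζ : ℕ → ℝ := fun i => zt k t w i with hζ
  have hAb : pp t * ∑ i ∈ range k, ζ i * e i
      = ζ k * (pp t * ∑ i ∈ range k, e i) + ∑ i ∈ range k, dt k t w i * Fn (i + 1) := by
    have h1 : pp t * ∑ i ∈ range k, ζ i * e i
        = ∑ i ∈ range k, ζ i * (Fn (i + 1) - Fn i) := by
      rw [Finset.mul_sum]
      apply Finset.sum_congr rfl
      intro i hi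
      rw [← hEr i (Finset.mem_range.mp hi)]
      ring
    have h2 : pp t * ∑ i ∈ range k, e i = Fn k := by
      have h3 : pp t * ∑ i ∈ range k, e i = ∑ i ∈ range k, (1 : ℝ) * (Fn (i + 1) - Fn i) := by
        rw [Finset.mul_sum]
        apply Finset.sum_congr rfl
        intro i hi
        rw [← hEr i (Finset.mem_range.mp hi)]
        ring
      rw [h3, abel (fun _ => (1 : ℝ)) Fn hFn0 k]
      simp
    rw [h1, h2, abel ζ Fn hFn0 k]
    rfl
  -- the basis function
  have hBl : ∀ j : ℕ, Bl k t (B1r P t) j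
      = -(2 * P.c1h * js t 1 * Fn (j + 1)) + 2 * P.r1 * ph t * th t * (((k : ℝ) - 1 - j) * r j) := by
    intro j
    have h0 : ex t (2 * (0 * (j : ℤ))) = 1 := by rw [hexz, zero_mul, zpow_zero]
    have h1 : ∀ c : ℝ, ((c : ℂ) * (kap t * mu t) * ex t (2 * (-1 * (j : ℤ)))).re = c * r j := by
      intro c
      have h2 : (c : ℂ) * (kap t * mu t) * ex t (2 * (-1 * (j : ℤ)))
          = (c : ℂ) * (K * cj L ^ (j + 2)) := by
        rw [hLb, hmu]
        ring
      rw [h2, Complex.re_ofReal_mul]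
    have h3 : Fn (j + 1) = (kl t).re - r j := by
      simp only [hFn, hr, Complex.sub_re]
    unfold Bl B1r Bf
    simp only [List.map_cons, List.map_nil, List.sum_cons, List.sum_nil, pow_zero, pow_one, one_mul,
      add_zero, h0, mul_one, h1, Complex.ofReal_re, h3]
    ring
  have hSSB : SS k t (Bl k t (B1r P t)) (Dh k t w)
      = -(2 * P.c1h * js t 1 * ∑ i ∈ range k, dt k t w i * Fn (i + 1))
        + 2 * P.r1 * ph t * th t * ∑ i ∈ range k, ((k : ℝ) - 1 - i) * (dt k t w i * r i) := by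
    unfold SS Dh
    rw [Finset.mul_sum, Finset.mul_sum, Finset.mul_sum, ← Finset.sum_neg_distrib,
      ← Finset.sum_add_distrib]
    apply Finset.sum_congr rfl
    intro j _
    rw [hBl]
    field_simp
  have hSSD : th t * SS k t (Dh k t w) (Dh k t w) = ∑ i ∈ range k, dt k t w i ^ 2 := by
    unfold SS Dh
    rw [Finset.mul_sum, Finset.mul_sum]
    apply Finset.sum_congr rfl
    intro j _
    field_simp
  -- the old and the new form
  have hQ0 : Qf P k t w = th t * P.c1h * (∑ i ∈ range k, ζ i ^ 2 + ζ k ^ 2 - ζ 0 ^ 2)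
      + P.r1 * (∑ i ∈ range k, ((k : ℝ) - 1 - i) * dt k t w i ^ 2
        + ∑ i ∈ range k, dt k t w i ^ 2) := by
    unfold Qf
    rw [tele (fun i => zt k t w i) k, ← Finset.sum_add_distrib]
    congr 2
    apply Finset.sum_congr rfl
    intro i _
    ring
  have hQ1 : Qf P k t w' = th t * P.c1h * (∑ i ∈ range k, ζ i ^ 2
        + 2 * (th t * g) * ∑ i ∈ range k, ζ i * e i + (th t * g) ^ 2 * ∑ i ∈ range k, e i ^ 2)
      + P.r1 * (k * (pp t * ζ k + th t * g * k0 t) ^ 2
        + (∑ i ∈ range k, ((k : ℝ) - 1 - i) * dt k t w i ^ 2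
          - 2 * (pp t * (th t * g)) * ∑ i ∈ range k, ((k : ℝ) - 1 - i) * (dt k t w i * r i)
          + (pp t * (th t * g)) ^ 2 * ∑ i ∈ range k, ((k : ℝ) - 1 - i) * r i ^ 2)) := by
    unfold Qf
    rw [wshift (fun i => dt k t w i - pp t * (th t * g) * (kap t * cj (lam t) ^ (i + 2)).re) k
      (by omega) (fun i => dt k t w' i) hd]
    have h1 : ∑ i ∈ range k, zt k t w' (i + 1) ^ 2
        = ∑ i ∈ range k, ζ i ^ 2 + 2 * (th t * g) * ∑ i ∈ range k, ζ i * e i
          + (th t * g) ^ 2 * ∑ i ∈ range k, e i ^ 2 := by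
      rw [Finset.mul_sum, Finset.mul_sum, ← Finset.sum_add_distrib, ← Finset.sum_add_distrib]
      apply Finset.sum_congr rfl
      intro i hi
      rw [hz i (Finset.mem_range.mp hi)]
      ring
    have h2 : ∑ i ∈ range k, ((k : ℝ) - 1 - i)
          * (dt k t w i - pp t * (th t * g) * (kap t * cj (lam t) ^ (i + 2)).re) ^ 2
        = ∑ i ∈ range k, ((k : ℝ) - 1 - i) * dt k t w i ^ 2
          - 2 * (pp t * (th t * g)) * ∑ i ∈ range k, ((k : ℝ) - 1 - i) * (dt k t w i * r i)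
          + (pp t * (th t * g)) ^ 2 * ∑ i ∈ range k, ((k : ℝ) - 1 - i) * r i ^ 2 := by
      rw [Finset.mul_sum, Finset.mul_sum, ← Finset.sum_sub_distrib, ← Finset.sum_add_distrib]
      apply Finset.sum_congr rfl
      intro i _
      simp only [hr, hK, hL]
      ring
    rw [h1, h2, hd0]
    simp only [hζ]
    ring
  rw [hQ0, hQ1, hSSB, ← hE1, ← hE2, ← hR2]
  have hzk : zt k t w k = ζ k := rfl
  have hz00 : zt k t w 0 = ζ 0 := rfl
  rw [hzk, hz00]
  generalize (∑ i ∈ range k, ζ i * e i) = Sze at *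
  generalize (∑ i ∈ range k, e i) = Se at *
  generalize (∑ i ∈ range k, e i ^ 2) = Se2 at *
  generalize (∑ i ∈ range k, dt k t w i * Fn (i + 1)) = SdF at *
  generalize (∑ i ∈ range k, ((k : ℝ) - 1 - i) * (dt k t w i * r i)) = Sdr at *
  generalize (∑ i ∈ range k, ((k : ℝ) - 1 - i) * r i ^ 2) = Sr2 at *
  generalize (∑ i ∈ range k, ((k : ℝ) - 1 - i) * dt k t w i ^ 2) = Sk1 at *
  generalize (∑ i ∈ range k, dt k t w i ^ 2) = Sd2 at *
  generalize (∑ i ∈ range k, ζ i ^ 2) = Sz2 at *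
  have hAb2 : th t * Sze = th t * ζ k * Se + js t 1 * SdF := by
    rw [hpp] at hAb
    linear_combination (js t 1) * hAb + (th t * (ζ k * Se - Sze)) * hjs
  rw [hpp, ← hSSD, ← hkt]
  linear_combination (-(2 * th t * P.c1h * g)) * hAb2

end Pool.Agent.Helper58.DL
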